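import Pool.Agent.Helper97_Fine.VONE

/-! # FINE, module EXACT: the double Laplace transform of `Phi` -/

namespace Pool.Agent.H16F.H97

open MeasureTheory Complex Filter Topology ProbabilityTheory Pool.Agent.H16Iso Pool.Agent.H62T
open scoped ENNReal NNReal

variable {β β' : ℝ}

/-! ### one variable integrals -/

theorem int_k {a t : ℝ} (ha : 0 < a) (ht : 0 < t) :
    IntegrableOn (fun k : ℝ => 2 * k * Real.exp (-(k ^ 2 * t))) (Set.Ioi a) ∧
    ∫ k in Set.Ioi a, 2 * k * Real.exp (-(k ^ 2 * t)) = Real.exp (-(a ^ 2 * t)) / t := by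
  have hd : ∀ k ∈ Set.Ici a, HasDerivAt (fun k : ℝ => -(Real.exp (-(k ^ 2 * t)) / t))
      (2 * k * Real.exp (-(k ^ 2 * t))) k := by
    intro k _
    have h1 : HasDerivAt (fun k : ℝ => -(k ^ 2 * t)) (-(2 * k * t)) k := by
      have h2 := ((hasDerivAt_pow 2 k).mul_const t).neg
      refine h2.congr_deriv ?_
      simp
    have h3 := (h1.exp.div_const t).neg
    refine h3.congr_deriv ?_
    field_simp
  have hp : ∀ k ∈ Set.Ioi a, 0 ≤ 2 * k * Real.exp (-(k ^ 2 * t)) := by
    intro k hk
    have hk' : 0 < k := lt_trans ha hk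
    positivity
  have hl : Tendsto (fun k : ℝ => -(Real.exp (-(k ^ 2 * t)) / t)) atTop (𝓝 0) := by
    have h1 : Tendsto (fun k : ℝ => k ^ 2 * t) atTop atTop :=
      (tendsto_pow_atTop (by norm_num)).atTop_mul_const ht
    have h2 := (Real.tendsto_exp_neg_atTop_nhds_zero.comp h1).div_const t
    have h3 := h2.neg
    simpa using h3
  refine ⟨integrableOn_Ioi_deriv_of_nonneg' hd hp hl, ?_⟩
  rw [integral_Ioi_of_hasDerivAt_of_nonneg' hd hp hl]
  ring

theorem x_exp_le (x : ℝ) : x * Real.exp (-(1 / 2 * x)) ≤ 2 := by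
  have h1 := Real.add_one_le_exp (1 / 2 * x)
  have h2 : 0 < Real.exp (1 / 2 * x) := Real.exp_pos _
  rw [Real.exp_neg, ← div_eq_mul_inv, div_le_iff₀ h2]
  linarith

/-- the function `Phi`, normalised -/
noncomputable def Ph (β β' t : ℝ) : ℝ := Phi β β' (1 / Real.sqrt t) / (4 * Real.pi)

theorem Ph_nonneg (hPHI : PhiStatement) (h0 : 0 < β) (h1 : β < Real.pi / 3)
    (h0' : 0 < β') (h1' : β' < Real.pi / 3) (t : ℝ) : 0 ≤ Ph β β' t := by
  have hpi := Real.pi_pos
  exact div_nonneg (Phi_bd hPHI h0 h1 h0' h1' (by positivity)).1 (by positivity)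

theorem measurable_Ph (hPHI : PhiStatement) (h0 : 0 < β) (h1 : β < Real.pi / 3)
    (h0' : 0 < β') (h1' : β' < Real.pi / 3) : Measurable (Ph β β') := by
  have hpi := Real.pi_pos
  obtain ⟨-, -, hcont, -, -⟩ := hPHI β β' h0 (by linarith) h0' (by linarith)
  refine Measurable.div_const ?_ _
  exact hcont.measurable.comp (measurable_const.div Real.continuous_sqrt.measurable)

theorem Ph_div_le (hPHI : PhiStatement) (h0 : 0 < β) (h1 : β < Real.pi / 3)
    (h0' : 0 < β') (h1' : β' < Real.pi / 3) : ∃ D : ℝ, 0 ≤ D ∧ ∀ t : ℝ, 0 < t →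
      Ph β β' t / t ≤ D := by
  have hpi := Real.pi_pos
  obtain ⟨-, -, -, hup, -⟩ := hPHI β β' h0 (by linarith) h0' (by linarith only [h0, h1, h1'])
  obtain ⟨C, hC⟩ := hup (1 / 2) (by norm_num) (by norm_num)
  have hC0 : 0 ≤ C := by
    have h2 := hC 0 le_rfl
    have h3 := (Phi_bd hPHI h0 h1 h0' h1' (le_refl (0 : ℝ))).1
    simp only [ne_eq, OfNat.ofNat_ne_zero, not_false_eq_true, zero_pow, mul_zero, neg_zero,
      Real.exp_zero, mul_one] at h2
    linarith
  refine ⟨C / (4 * Real.pi) * 2, by positivity, fun t ht => ?_⟩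
  have h2 := hC (1 / Real.sqrt t) (by positivity)
  have h3 : (1 / Real.sqrt t) ^ 2 = 1 / t := by
    rw [div_pow, one_pow, Real.sq_sqrt ht.le]
  rw [h3] at h2
  have h4 := x_exp_le (1 / t)
  have h5 : (1 - 1 / 2 : ℝ) = 1 / 2 := by norm_num
  rw [h5] at h2
  unfold Ph
  have h6 : 0 < 1 / t := by positivity
  calc Phi β β' (1 / Real.sqrt t) / (4 * Real.pi) / t
      = Phi β β' (1 / Real.sqrt t) * (1 / t) / (4 * Real.pi) := by ring
    _ ≤ (C * Real.exp (-(1 / 2 * (1 / t)))) * (1 / t) / (4 * Real.pi) := by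
        apply div_le_div_of_nonneg_right _ (by positivity)
        exact mul_le_mul_of_nonneg_right h2 h6.le
    _ = C / (4 * Real.pi) * (1 / t * Real.exp (-(1 / 2 * (1 / t)))) := by ring
    _ ≤ C / (4 * Real.pi) * 2 := mul_le_mul_of_nonneg_left h4 (by positivity)

/-- the left side of EXACT -/
noncomputable def LL2 (β β' a : ℝ) : ℝ := ∫ t in Set.Ioi (0 : ℝ), Real.exp (-(a ^ 2 * t))
          * (Phi β β' (1 / Real.sqrt t) / (4 * Real.pi * t))

theorem LL2_eq (a : ℝ) : LL2 β β' a = ∫ t in Set.Ioi (0 : ℝ), Real.exp (-(a ^ 2 * t))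
    * (Ph β β' t / t) := by
  unfold LL2 Ph
  refine setIntegral_congr_fun measurableSet_Ioi (fun t _ => ?_)
  simp only [div_div]

theorem LL2_int (hPHI : PhiStatement) (h0 : 0 < β) (h1 : β < Real.pi / 3)
    (h0' : 0 < β') (h1' : β' < Real.pi / 3) {a : ℝ} (ha : 0 < a) :
    IntegrableOn (fun t => Real.exp (-(a ^ 2 * t)) * (Ph β β' t / t)) (Set.Ioi 0) := by
  obtain ⟨D, hD, hb⟩ := Ph_div_le hPHI h0 h1 h0' h1'
  have ha2 : 0 < a ^ 2 := by positivity
  have hi : IntegrableOn (fun t : ℝ => Real.exp (-(a ^ 2) * t)) (Set.Ioi 0) :=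
    integrableOn_exp_mul_Ioi (by linarith) 0
  refine (hi.mul_const D).mono' ?_ ?_
  · refine Measurable.aestronglyMeasurable ?_
    refine Measurable.mul (by fun_prop) ?_
    exact (measurable_Ph hPHI h0 h1 h0' h1').div measurable_id
  · refine (ae_restrict_iff' measurableSet_Ioi).2 (Eventually.of_forall (fun t ht => ?_))
    have ht' : (0 : ℝ) < t := ht
    have h2 := Ph_nonneg hPHI h0 h1 h0' h1' t
    rw [norm_mul, Real.norm_of_nonneg (Real.exp_pos _).le, Real.norm_of_nonneg
      (div_nonneg h2 ht'.le), neg_mul]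
    exact mul_le_mul_of_nonneg_left (hb t ht') (Real.exp_pos _).le

/-- the left side as an integral over the parameter -/
theorem LL2_param (hPHI : PhiStatement) (h0 : 0 < β) (h1 : β < Real.pi / 3)
    (h0' : 0 < β') (h1' : β' < Real.pi / 3) {a : ℝ} (ha : 0 < a) :
    IntegrableOn (fun k => 2 * k * AA β β' k) (Set.Ioi a) ∧
    LL2 β β' a = ∫ k in Set.Ioi a, 2 * k * AA β β' k := by
  have hpn := Ph_nonneg hPHI h0 h1 h0' h1'
  have hmeas : Measurable (Function.uncurry (fun t k : ℝ => Ph β β' t *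
      (2 * k * Real.exp (-(k ^ 2 * t))))) := by
    change Measurable (fun p : ℝ × ℝ => Ph β β' p.1 * (2 * p.2 * Real.exp (-(p.2 ^ 2 * p.1))))
    refine Measurable.mul ((measurable_Ph hPHI h0 h1 h0' h1').comp measurable_fst) ?_
    fun_prop
  have hint : Integrable (Function.uncurry (fun t k : ℝ => Ph β β' t *
      (2 * k * Real.exp (-(k ^ 2 * t)))))
      ((volume.restrict (Set.Ioi (0 : ℝ))).prod (volume.restrict (Set.Ioi a))) := by
    rw [integrable_prod_iff hmeas.aestronglyMeasurable]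
    constructor
    · refine (ae_restrict_iff' measurableSet_Ioi).2 (Eventually.of_forall (fun t ht => ?_))
      have h5 : Integrable (fun k : ℝ => Ph β β' t * (2 * k * Real.exp (-(k ^ 2 * t))))
          (volume.restrict (Set.Ioi a)) := ((int_k ha ht).1).const_mul _
      exact h5
    · refine (LL2_int hPHI h0 h1 h0' h1' ha).congr ?_
      refine (ae_restrict_iff' measurableSet_Ioi).2 (Eventually.of_forall (fun t ht => ?_))
      have e : ∫ k in Set.Ioi a, ‖Ph β β' t * (2 * k * Real.exp (-(k ^ 2 * t)))‖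
          = Ph β β' t * ∫ k in Set.Ioi a, 2 * k * Real.exp (-(k ^ 2 * t)) := by
        rw [← integral_const_mul]
        refine setIntegral_congr_fun measurableSet_Ioi (fun k hk => ?_)
        have hk' : 0 < k := lt_trans ha hk
        exact Real.norm_of_nonneg (mul_nonneg (hpn t) (by positivity))
      simp only [Function.uncurry]
      rw [e, (int_k ha ht).2]
      ring
  have hswap := integral_integral_swap hint
  have e1 : ∀ k : ℝ, ∫ t in Set.Ioi (0 : ℝ), Ph β β' t * (2 * k * Real.exp (-(k ^ 2 * t)))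
      = 2 * k * AA β β' k := by
    intro k
    unfold AA
    rw [← integral_const_mul]
    refine setIntegral_congr_fun measurableSet_Ioi (fun t _ => ?_)
    simp only [Ph]
    ring
  have hint2 := hint.swap.integral_prod_left
  constructor
  · refine hint2.congr (Eventually.of_forall (fun k => ?_))
    exact e1 k
  · rw [LL2_eq]
    simp only [e1] at hswap
    rw [← hswap]
    refine setIntegral_congr_fun measurableSet_Ioi (fun t ht => ?_)
    rw [integral_const_mul, (int_k ha ht).2]
    ring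

/-! ### the main term -/

/-- weight -/
noncomputable def gB (β β' : ℝ) (p : ℝ × ℝ) : ℝ := bb β p.1 p.2 * bb β' p.1 p.2

theorem gB_bd (h0 : 0 < β) (h1 : β < Real.pi / 3)
    (h0' : 0 < β') (h1' : β' < Real.pi / 3) (p : ℝ × ℝ) : |gB β β' p| ≤ 1 := by
  unfold gB
  rw [abs_mul]
  calc |bb β p.1 p.2| * |bb β' p.1 p.2| ≤ 1 * 1 :=
        mul_le_mul (bb_bd h0 h1 _ _) (bb_bd h0' h1' _ _) (abs_nonneg _) zero_le_one
    _ = 1 := one_mul 1

theorem gB_symm (p : ℝ × ℝ) : gB β β' p.swap = gB β β' p := by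
  unfold gB
  simp only [Prod.fst_swap, Prod.snd_swap]
  rw [bb_symm β, bb_symm β']

theorem measurable_gB (h0 : 0 < β) (h1 : β < Real.pi / 3)
    (h0' : 0 < β') (h1' : β' < Real.pi / 3) : Measurable (gB β β') :=
  ((continuous_bb h0 h1).mul (continuous_bb h0' h1')).measurable

/-- the sum of the hyperbolic cosines -/
noncomputable def cc (p : ℝ × ℝ) : ℝ := Real.cosh p.1 + Real.cosh p.2

theorem cc_pos (p : ℝ × ℝ) : 0 < cc p := add_pos (Real.cosh_pos _) (Real.cosh_pos _)

theorem exp_cc (k : ℝ) (p : ℝ × ℝ) : Real.exp (-(k * cc p)) = ep k p.1 * ep k p.2 := by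
  unfold cc ep
  rw [← Real.exp_add]
  congr 1
  ring

theorem integrable_exp_cc {k : ℝ} (hk : 0 < k) :
    Integrable (fun p => Real.exp (-(k * cc p))) (nuM.prod nuM) := by
  have h := (integrableOn_ep' k hk).mul_prod (integrableOn_ep' k hk)
  refine h.congr (Eventually.of_forall (fun p => ?_))
  exact (exp_cc k p).symm

theorem measurable_exp_cc (k : ℝ) : Measurable (fun p : ℝ × ℝ => Real.exp (-(k * cc p))) := by
  unfold cc; fun_prop

theorem tau_eq (h0 : 0 < β) (h1 : β < Real.pi / 3)
    (h0' : 0 < β') (h1' : β' < Real.pi / 3) {a : ℝ} (ha : 0 < a) :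
    Integrable (fun p => gB β β' p * Real.exp (-(a * cc p))) (nuM.prod nuM) ∧
    tau β β' a = ∫ p, gB β β' p * Real.exp (-(a * cc p)) ∂(nuM.prod nuM) := by
  have hint : Integrable (fun p => gB β β' p * Real.exp (-(a * cc p))) (nuM.prod nuM) := by
    refine (integrable_exp_cc ha).mono' ?_ ?_
    · exact ((measurable_gB h0 h1 h0' h1').mul (measurable_exp_cc a)).aestronglyMeasurable
    · refine Eventually.of_forall (fun p => ?_)
      rw [norm_mul, Real.norm_eq_abs, Real.norm_of_nonneg (Real.exp_pos _).le]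
      have := gB_bd h0 h1 h0' h1' p
      have h2 := Real.exp_pos (-(a * cc p))
      nlinarith
  refine ⟨hint, ?_⟩
  rw [integral_prod _ hint]
  rfl

theorem MM_eq (h0 : 0 < β) (h1 : β < Real.pi / 3)
    (h0' : 0 < β') (h1' : β' < Real.pi / 3) {k : ℝ} (hk : 0 < k) :
    2 * k * MM β β' k = ∫ p, 2 * gB β β' p * Real.cosh p.1 * Real.exp (-(k * cc p))
      ∂(nuM.prod nuM) := by
  have hint : Integrable (fun p => 2 * gB β β' p * Real.cosh p.1 * Real.exp (-(k * cc p)))
      (nuM.prod nuM) := by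
    have h := ((integrableOn_cosh_ep k hk).mul_prod (integrableOn_ep' k hk)).const_mul 2
    refine h.mono' ?_ ?_
    · refine Measurable.aestronglyMeasurable ?_
      refine ((measurable_gB h0 h1 h0' h1').const_mul 2).mul ?_ |>.mul (measurable_exp_cc k)
      fun_prop
    · refine Eventually.of_forall (fun p => ?_)
      rw [exp_cc]
      have h2 := gB_bd h0 h1 h0' h1' p
      have h3 := Real.cosh_pos p.1
      have h4 : 0 < ep k p.1 * ep k p.2 := mul_pos (ep_pos _ _) (ep_pos _ _)
      rw [norm_mul, norm_mul, norm_mul, Real.norm_eq_abs (gB β β' p),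
        Real.norm_of_nonneg (by norm_num : (0 : ℝ) ≤ 2), Real.norm_of_nonneg h3.le,
        Real.norm_of_nonneg h4.le]
      calc 2 * |gB β β' p| * Real.cosh p.1 * (ep k p.1 * ep k p.2)
          ≤ 2 * 1 * Real.cosh p.1 * (ep k p.1 * ep k p.2) := by
            gcongr
        _ = 2 * (Real.cosh p.1 * ep k p.1 * ep k p.2) := by ring
  rw [integral_prod _ hint]
  unfold MM nuM
  have e : ∀ x : ℝ, 2 * k * (1 / k * x) = 2 * x := by
    intro x; field_simp
  rw [e, ← integral_const_mul]
  refine setIntegral_congr_fun measurableSet_Ioi (fun u _ => ?_)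
  simp only
  rw [← integral_const_mul]
  refine setIntegral_congr_fun measurableSet_Ioi (fun w _ => ?_)
  simp only [exp_cc, gB]
  ring

theorem int_k2 {a s : ℝ} (hs : 0 < s) :
    IntegrableOn (fun k : ℝ => Real.exp (-(k * s))) (Set.Ioi a) ∧
    ∫ k in Set.Ioi a, Real.exp (-(k * s)) = Real.exp (-(a * s)) / s := by
  have e : ∀ k : ℝ, Real.exp (-(k * s)) = Real.exp (-s * k) := by
    intro k; congr 1; ring
  simp only [e]
  refine ⟨integrableOn_exp_mul_Ioi (by linarith) a, ?_⟩
  rw [integral_exp_mul_Ioi (by linarith) a]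
  field_simp

theorem MM_param (h0 : 0 < β) (h1 : β < Real.pi / 3)
    (h0' : 0 < β') (h1' : β' < Real.pi / 3) {a : ℝ} (ha : 0 < a) :
    IntegrableOn (fun k => 2 * k * MM β β' k) (Set.Ioi a) ∧
    tau β β' a = ∫ k in Set.Ioi a, 2 * k * MM β β' k := by
  have hmeas : Measurable (Function.uncurry (fun (p : ℝ × ℝ) (k : ℝ) =>
      2 * gB β β' p * Real.cosh p.1 * Real.exp (-(k * cc p)))) := by
    change Measurable (fun q : (ℝ × ℝ) × ℝ => 2 * gB β β' q.1 * Real.cosh q.1.1 *
      Real.exp (-(q.2 * cc q.1)))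
    refine Measurable.mul (Measurable.mul (((measurable_gB h0 h1 h0' h1').comp
      measurable_fst).const_mul 2) (by fun_prop)) ?_
    unfold cc
    fun_prop
  have hkint : ∀ p : ℝ × ℝ, ∫ k in Set.Ioi a, 2 * gB β β' p * Real.cosh p.1 *
      Real.exp (-(k * cc p)) = 2 * gB β β' p * Real.cosh p.1 *
        (Real.exp (-(a * cc p)) / cc p) := by
    intro p
    rw [integral_const_mul, (int_k2 (cc_pos p)).2]
  have hint : Integrable (Function.uncurry (fun (p : ℝ × ℝ) (k : ℝ) =>
      2 * gB β β' p * Real.cosh p.1 * Real.exp (-(k * cc p))))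
      ((nuM.prod nuM).prod (volume.restrict (Set.Ioi a))) := by
    rw [integrable_prod_iff hmeas.aestronglyMeasurable]
    constructor
    · refine Eventually.of_forall (fun p => ?_)
      have h5 : Integrable (fun k : ℝ => 2 * gB β β' p * Real.cosh p.1 *
          Real.exp (-(k * cc p))) (volume.restrict (Set.Ioi a)) :=
        ((int_k2 (cc_pos p)).1).const_mul _
      exact h5
    · have e : ∀ p : ℝ × ℝ, ∫ k in Set.Ioi a,
          ‖2 * gB β β' p * Real.cosh p.1 * Real.exp (-(k * cc p))‖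
          = 2 * |gB β β' p| * Real.cosh p.1 * (Real.exp (-(a * cc p)) / cc p) := by
        intro p
        rw [← (int_k2 (cc_pos p)).2, ← integral_const_mul]
        refine setIntegral_congr_fun measurableSet_Ioi (fun k _ => ?_)
        rw [norm_mul, norm_mul, norm_mul, Real.norm_eq_abs (gB β β' p),
          Real.norm_of_nonneg (by norm_num : (0 : ℝ) ≤ 2),
          Real.norm_of_nonneg (Real.cosh_pos _).le, Real.norm_of_nonneg (Real.exp_pos _).le]
      simp only [Function.uncurry, e]
      refine ((integrable_exp_cc ha).const_mul 2).mono' ?_ ?_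
      · refine Measurable.aestronglyMeasurable ?_
        have m1 : Measurable (fun p => |gB β β' p|) :=
          continuous_abs.measurable.comp (measurable_gB h0 h1 h0' h1')
        have m2 : Measurable cc := by unfold cc; fun_prop
        exact ((m1.const_mul 2).mul (by fun_prop)).mul ((measurable_exp_cc a).div m2)
      · refine Eventually.of_forall (fun p => ?_)
        have h2 := gB_bd h0 h1 h0' h1' p
        have h3 := Real.cosh_pos p.1
        have h3' := Real.cosh_pos p.2
        have h4 := cc_pos p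
        have h5 := Real.exp_pos (-(a * cc p))
        have h6 : Real.cosh p.1 / cc p ≤ 1 := by
          rw [div_le_one h4]
          unfold cc
          linarith
        have h7 : 0 ≤ Real.cosh p.1 / cc p := by positivity
        rw [Real.norm_of_nonneg (by positivity)]
        calc 2 * |gB β β' p| * Real.cosh p.1 * (Real.exp (-(a * cc p)) / cc p)
            = 2 * (|gB β β' p| * (Real.cosh p.1 / cc p)) * Real.exp (-(a * cc p)) := by ring
          _ ≤ 2 * (1 * 1) * Real.exp (-(a * cc p)) := by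
              gcongr
          _ = 2 * Real.exp (-(a * cc p)) := by ring
  have hswap := integral_integral_swap hint
  simp only [hkint] at hswap
  have e1 : ∀ k ∈ Set.Ioi a, ∫ p, 2 * gB β β' p * Real.cosh p.1 * Real.exp (-(k * cc p))
      ∂(nuM.prod nuM) = 2 * k * MM β β' k := by
    intro k hk
    exact (MM_eq h0 h1 h0' h1' (lt_trans ha hk)).symm
  constructor
  · refine hint.swap.integral_prod_left.congr ?_
    refine (ae_restrict_iff' measurableSet_Ioi).2 (Eventually.of_forall (fun k hk => ?_))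
    exact e1 k hk
  · rw [← setIntegral_congr_fun measurableSet_Ioi (fun k hk => e1 k hk), ← hswap]
    -- symmetrisation
    obtain ⟨htint, hteq⟩ := tau_eq h0 h1 h0' h1' ha
    rw [hteq]
    set h : ℝ × ℝ → ℝ := fun p => 2 * gB β β' p * Real.cosh p.1 *
      (Real.exp (-(a * cc p)) / cc p) with hh
    have hI : Integrable h (nuM.prod nuM) := by
      have h2 := hint.integral_prod_left
      refine h2.congr (Eventually.of_forall (fun p => ?_))
      exact hkint p
    have hs : ∫ p, h p.swap ∂(nuM.prod nuM) = ∫ p, h p ∂(nuM.prod nuM) :=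
      integral_prod_swap h
    have hsum : ∀ p, h p + h p.swap = 2 * (gB β β' p * Real.exp (-(a * cc p))) := by
      intro p
      have hc : cc p.swap = cc p := by
        unfold cc
        simp only [Prod.fst_swap, Prod.snd_swap]
        ring
      simp only [hh]
      rw [gB_symm, hc]
      simp only [Prod.fst_swap]
      have h4 := (cc_pos p).ne'
      field_simp
      unfold cc
      ring
    have h5 : (∫ p, h p ∂(nuM.prod nuM)) + ∫ p, h p.swap ∂(nuM.prod nuM)
        = 2 * ∫ p, gB β β' p * Real.exp (-(a * cc p)) ∂(nuM.prod nuM) := by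
      have hI2 : Integrable (fun p => h p.swap) (nuM.prod nuM) := hI.swap
      rw [← integral_add hI hI2, ← integral_const_mul]
      refine integral_congr_ae (Eventually.of_forall (fun p => ?_))
      exact hsum p
    rw [hs] at h5
    linarith only [h5]

theorem tau_bd (h0 : 0 < β) (h1 : β < Real.pi / 3)
    (h0' : 0 < β') (h1' : β' < Real.pi / 3) : ∃ D : ℝ, 0 ≤ D ∧ ∀ a : ℝ, 1 ≤ a →
      |tau β β' a| ≤ D := by
  refine ⟨∫ p, Real.exp (-(1 * cc p)) ∂(nuM.prod nuM),
    integral_nonneg (fun p => (Real.exp_pos _).le), fun a ha => ?_⟩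
  rw [(tau_eq h0 h1 h0' h1' (a := a) (by linarith)).2]
  have h2 := norm_integral_le_of_norm_le (μ := nuM.prod nuM)
    (f := fun p => gB β β' p * Real.exp (-(a * cc p))) (integrable_exp_cc one_pos)
    (Eventually.of_forall (fun p => by
      rw [norm_mul, Real.norm_eq_abs, Real.norm_of_nonneg (Real.exp_pos _).le]
      have h3 := gB_bd h0 h1 h0' h1' p
      have h4 : Real.exp (-(a * cc p)) ≤ Real.exp (-(1 * cc p)) := by
        refine Real.exp_le_exp.2 ?_
        have := cc_pos p
        nlinarith only [ha, this]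
      have h5 := Real.exp_pos (-(a * cc p))
      nlinarith [abs_nonneg (gB β β' p)]))
  rw [Real.norm_eq_abs] at h2
  exact h2

theorem LL2_bd (hPHI : PhiStatement) (h0 : 0 < β) (h1 : β < Real.pi / 3)
    (h0' : 0 < β') (h1' : β' < Real.pi / 3) : ∃ D : ℝ, 0 ≤ D ∧ ∀ a : ℝ, 1 ≤ a →
      |LL2 β β' a| ≤ D := by
  have hpn := Ph_nonneg hPHI h0 h1 h0' h1'
  refine ⟨∫ t in Set.Ioi (0 : ℝ), Real.exp (-(1 ^ 2 * t)) * (Ph β β' t / t),
    setIntegral_nonneg measurableSet_Ioi (fun t ht => ?_), fun a ha => ?_⟩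
  · exact mul_nonneg (Real.exp_pos _).le (div_nonneg (hpn t) (le_of_lt ht))
  · rw [LL2_eq]
    have h2 := norm_integral_le_of_norm_le (μ := volume.restrict (Set.Ioi (0 : ℝ)))
      (f := fun t => Real.exp (-(a ^ 2 * t)) * (Ph β β' t / t))
      (LL2_int hPHI h0 h1 h0' h1' one_pos)
      ((ae_restrict_iff' measurableSet_Ioi).2 (Eventually.of_forall (fun t ht => by
        have ht' : (0 : ℝ) < t := ht
        have h3 := div_nonneg (hpn t) ht'.le
        rw [norm_mul, Real.norm_of_nonneg (Real.exp_pos _).le, Real.norm_of_nonneg h3]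
        refine mul_le_mul_of_nonneg_right ?_ h3
        refine Real.exp_le_exp.2 ?_
        have h4 : (1 : ℝ) ^ 2 ≤ a ^ 2 := by nlinarith only [ha]
        have h5 := mul_le_mul_of_nonneg_right h4 ht'.le
        linarith only [h5])))
    rw [Real.norm_eq_abs] at h2
    exact h2

theorem int_k3 {ε : ℝ} (hε : 0 < ε) :
    IntegrableOn (fun k : ℝ => 2 * k * Real.exp (-(2 * ε * k))) (Set.Ioi 0) := by
  have h1 : IntegrableOn (fun k : ℝ => 2 / ε * Real.exp (-ε * k)) (Set.Ioi 0) :=
    (integrableOn_exp_mul_Ioi (by linarith) 0).const_mul _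
  refine h1.mono' (by fun_prop) ?_
  refine (ae_restrict_iff' measurableSet_Ioi).2 (Eventually.of_forall (fun k hk => ?_))
  have hk' : (0 : ℝ) < k := hk
  rw [Real.norm_of_nonneg (by positivity)]
  have h2 := Real.add_one_le_exp (ε * k)
  have h3 : Real.exp (-(2 * ε * k)) = Real.exp (-ε * k) * Real.exp (-(ε * k)) := by
    rw [← Real.exp_add]; congr 1; ring
  have h4 : k * Real.exp (-(ε * k)) ≤ 1 / ε := by
    rw [Real.exp_neg, ← div_eq_mul_inv, div_le_div_iff₀ (Real.exp_pos _) hε]
    linarith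
  rw [h3]
  have h5 := Real.exp_pos (-ε * k)
  calc 2 * k * (Real.exp (-ε * k) * Real.exp (-(ε * k)))
      = 2 * Real.exp (-ε * k) * (k * Real.exp (-(ε * k))) := by ring
    _ ≤ 2 * Real.exp (-ε * k) * (1 / ε) := mul_le_mul_of_nonneg_left h4 (by positivity)
    _ = 2 / ε * Real.exp (-ε * k) := by ring

theorem exact (hV : VoneStatement) (hPHI : PhiStatement) : ExactStatement := by
  intro β β' h0 h1 h0' h1' ε hε hε1
  obtain ⟨κ0, C1, hκ0, hv⟩ := hV β β' h0 h1 h0' h1' (ε / 2) (by linarith) (by linarith only [hε1])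
  obtain ⟨D1, hD1, hb1⟩ := LL2_bd hPHI h0 h1 h0' h1'
  obtain ⟨D2, hD2, hb2⟩ := tau_bd h0 h1 h0' h1'
  set A0 : ℝ := max κ0 1 with hA0
  have hC1 : 0 ≤ C1 := by
    have h2 := hv κ0 le_rfl
    exact nonneg_of_bound (Real.exp_pos _) (h2)
  set J : ℝ := ∫ k in Set.Ioi (0 : ℝ), 2 * k * Real.exp (-(2 * ε * k)) with hJ
  have hJ0 : 0 ≤ J := setIntegral_nonneg measurableSet_Ioi (fun k hk => by
    have hk' : (0 : ℝ) < k := hk
    positivity)
  refine ⟨(D1 + D2) * Real.exp (4 * (1 - ε) * A0) + C1 * J, ?_⟩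
  intro a ha
  change |LL2 β β' a - tau β β' a| ≤ _
  have ha0 : 0 < a := by linarith
  have hexp := Real.exp_pos (-(4 * (1 - ε) * a))
  by_cases haA : a ≤ A0
  · have h2 : |LL2 β β' a - tau β β' a| ≤ D1 + D2 :=
      (abs_sub _ _).trans (add_le_add (hb1 a ha) (hb2 a ha))
    have h3 : 1 ≤ Real.exp (4 * (1 - ε) * A0) * Real.exp (-(4 * (1 - ε) * a)) := by
      rw [← Real.exp_add]
      refine Real.one_le_exp ?_
      nlinarith only [hε1, haA]
    have h4 : (D1 + D2) * 1 ≤ (D1 + D2) * (Real.exp (4 * (1 - ε) * A0) *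
        Real.exp (-(4 * (1 - ε) * a))) := mul_le_mul_of_nonneg_left h3 (by positivity)
    have h5 : 0 ≤ C1 * J * Real.exp (-(4 * (1 - ε) * a)) := by positivity
    calc |LL2 β β' a - tau β β' a| ≤ D1 + D2 := h2
      _ ≤ (D1 + D2) * (Real.exp (4 * (1 - ε) * A0) * Real.exp (-(4 * (1 - ε) * a)))
          + C1 * J * Real.exp (-(4 * (1 - ε) * a)) := by linarith
      _ = ((D1 + D2) * Real.exp (4 * (1 - ε) * A0) + C1 * J)
          * Real.exp (-(4 * (1 - ε) * a)) := by ring
  · push Not at haA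
    have hκa : κ0 ≤ a := (le_max_left _ _).trans haA.le
    obtain ⟨hI1, he1⟩ := LL2_param hPHI h0 h1 h0' h1' ha0
    obtain ⟨hI2, he2⟩ := MM_param h0 h1 h0' h1' ha0
    have h2 : LL2 β β' a - tau β β' a = ∫ k in Set.Ioi a,
        (2 * k * AA β β' k - 2 * k * MM β β' k) := by
      rw [integral_sub hI1 hI2, he1, he2]
    rw [h2]
    have hI3 : IntegrableOn (fun k : ℝ => 2 * k * Real.exp (-(2 * ε * k))) (Set.Ioi a) :=
      (int_k3 hε).mono_set (Set.Ioi_subset_Ioi ha0.le)
    have h3 := norm_integral_le_of_norm_le (μ := volume.restrict (Set.Ioi a))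
      (f := fun k => 2 * k * AA β β' k - 2 * k * MM β β' k)
      (hI3.const_mul (C1 * Real.exp (-(4 * (1 - ε) * a))))
      ((ae_restrict_iff' measurableSet_Ioi).2 (Eventually.of_forall (fun k hk => by
        have hk' : a < k := hk
        have hk0 : 0 < k := by linarith only [ha, hk']
        have h4 := hv k (by linarith)
        change |AA β β' k - MM β β' k| ≤ _ at h4
        rw [← mul_sub, norm_mul, Real.norm_eq_abs, Real.norm_eq_abs,
          abs_of_pos (by positivity : (0 : ℝ) < 2 * k)]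
        have h5 : Real.exp (-(4 * (1 - ε / 2) * k)) ≤ Real.exp (-(4 * (1 - ε) * a)) *
            Real.exp (-(2 * ε * k)) := by
          rw [← Real.exp_add]
          refine Real.exp_le_exp.2 ?_
          nlinarith only [hε1, hk']
        calc 2 * k * |AA β β' k - MM β β' k|
            ≤ 2 * k * (C1 * Real.exp (-(4 * (1 - ε / 2) * k))) :=
              mul_le_mul_of_nonneg_left h4 (by positivity)
          _ ≤ 2 * k * (C1 * (Real.exp (-(4 * (1 - ε) * a)) * Real.exp (-(2 * ε * k)))) := by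
              gcongr
          _ = C1 * Real.exp (-(4 * (1 - ε) * a)) * (2 * k * Real.exp (-(2 * ε * k))) := by
              ring)))
    rw [Real.norm_eq_abs, integral_const_mul] at h3
    have h6 : ∫ k in Set.Ioi a, 2 * k * Real.exp (-(2 * ε * k)) ≤ J := by
      refine setIntegral_mono_set (int_k3 hε) ?_ ?_
      · refine (ae_restrict_iff' measurableSet_Ioi).2 (Eventually.of_forall (fun k hk => ?_))
        have hk' : (0 : ℝ) < k := hk
        change 0 ≤ 2 * k * Real.exp (-(2 * ε * k))
        positivity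
      · exact (Set.Ioi_subset_Ioi ha0.le).eventuallyLE
    have h7 : 0 ≤ (D1 + D2) * Real.exp (4 * (1 - ε) * A0) * Real.exp (-(4 * (1 - ε) * a)) := by
      positivity
    calc |∫ k in Set.Ioi a, (2 * k * AA β β' k - 2 * k * MM β β' k)|
        ≤ C1 * Real.exp (-(4 * (1 - ε) * a)) *
          ∫ k in Set.Ioi a, 2 * k * Real.exp (-(2 * ε * k)) := h3
      _ ≤ C1 * Real.exp (-(4 * (1 - ε) * a)) * J :=
          mul_le_mul_of_nonneg_left h6 (by positivity)
      _ ≤ ((D1 + D2) * Real.exp (4 * (1 - ε) * A0) + C1 * J)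
          * Real.exp (-(4 * (1 - ε) * a)) := by
          rw [add_mul]
          linarith

end Pool.Agent.H16F.H97
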